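import Pool.Agent.W908.T.T6

/-! The oracle: one key for every level, and everything about the levels below for those who know
the key. -/

set_option autoImplicit false

namespace Pool.Agent.W908.US

open Pool.Agent.NPC Pool.Agent.H620R2.Gauge Pool.Agent.H622R2 Pool.Agent.H676 Finset
open Pool.Agent.W908.MS (pe pv pi pp scode trc)
open Pool.Agent.W908.TS (ky2 length_ky2)
open Pool.Agent.W908.QS (QAlg qgen qgen_surj qbd qbd_len qbd_ques acc_local cm cm_le cm_nonneg
  mass_sum acc_close)
open Pool.Agent.W908.HS (unpair_len2)

/-- the key of the level `m` -/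
def pk (W : Oracle) (m : ℕ) : List Bool := ky2 W (List.replicate m true)

theorem length_pk (W : Oracle) (m : ℕ) : (pk W m).length = 4 * m := by
  unfold pk
  rw [length_ky2, List.length_replicate]

/-- one if the key in the question is `u` -/
def uk (u q : List Bool) : ℝ := if (unpair q).1 = u then 1 else 0

theorem uk_nonneg (u q : List Bool) : 0 ≤ uk u q := by
  unfold uk
  split_ifs <;> norm_num

open Classical in
/-- the heavy keys of higher levels -/
noncomputable def HK (A : Oracle) (B m : ℕ) (c : List Unit × List Gate) : Finset (List Bool) :=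
  (W_strs B).filter (fun u => 4 * m < u.length ∧ 1 / (B : ℝ) < cm A (uk u) c)

/-- the heavy key with the number `j` -/
noncomputable def nk (A : Oracle) (B m : ℕ) (c : List Unit × List Gate) (j : ℕ) : List Bool :=
  (HK A B m c).toList.getD j [true]

open Classical in
/-- the answer of the solver -/
noncomputable def sv (A : Oracle) (B m : ℕ) (c : List Unit × List Gate) (j : ℕ) :
    List Bool → Bool
  | [] => decide (1 / 2 ≤ accProb A c)
  | true :: i => decide (i.length < (nk A B m c j).length)
  | false :: i => (nk A B m c j).getD i.length false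

open Classical in
/-- the answer to a question with the right key; `O'` is about the lower levels and `F B` is for
the circuits -/
noncomputable def an1 (O' : Oracle) (F : ℕ → Oracle) (m : ℕ) : List Bool → Bool
  | [] => true
  | [true] => false
  | true :: c :: z => decide (z.length = m) && (!c || decide (SP.TT O' z))
  | false :: s => sv (F (pp s).length) (pp s).length m
      ((qgen (pe s)).1.C (unpair (pv s)).1) (unpair (pv s)).2.length (pi s)

theorem an1_congr {O' : Oracle} {F F' : ℕ → Oracle} {m : ℕ} {l : List Bool}
    (h : ∀ s, l = false :: s → F (pp s).length = F' (pp s).length) :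
    an1 O' F m l = an1 O' F' m l := by
  match l with
  | [] => rfl
  | [true] => rfl
  | true :: c :: z => rfl
  | false :: s =>
    show sv (F (pp s).length) _ _ _ _ _ = sv (F' (pp s).length) _ _ _ _ _
    rw [h s rfl]

/-- the next level -/
noncomputable def ext (O' : Oracle) (k : List Bool) (m : ℕ) (q : List Bool) : Bool :=
  if (unpair q).1 = k then
    an1 O' (fun B => trc B (fun q' => if _h : q'.length < q.length then ext O' k m q' else false))
      m (unpair q).2
  else O' q
termination_by q.length

theorem pp_le (s : List Bool) : (pp s).length ≤ s.length := by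
  unfold pp
  have h1 := unpair_len2 s
  have h2 := unpair_len2 (unpair s).2
  have h3 := unpair_len2 (unpair (unpair s).2).2
  omega

theorem ext_eq (O' : Oracle) (k : List Bool) (m : ℕ) (q : List Bool) : ext O' k m q =
    if (unpair q).1 = k then an1 O' (fun B => trc B (ext O' k m)) m (unpair q).2 else O' q := by
  rw [ext]
  split_ifs with h
  · refine an1_congr fun s hs => ?_
    have h1 := unpair_len2 q
    have h2 := pp_le s
    rw [hs, List.length_cons] at h1
    funext q'
    unfold trc
    by_cases h3 : q'.length < (pp s).length
    · rw [if_pos h3, if_pos h3]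
      beta_reduce
      rw [dif_pos (by omega)]
    · rw [if_neg h3, if_neg h3]
  · rfl

/-- the oracle for the levels below `m` -/
noncomputable def Ow (W : Oracle) : ℕ → Oracle
  | 0 => fun _ => false
  | m + 1 => ext (Ow W m) (pk W m) m

/-- The oracle. -/
noncomputable def OU (W : Oracle) : Oracle := fun q => Ow W (q.length + 1) q

variable {W : Oracle} {m : ℕ} {q : List Bool}

theorem Ow_ne (h : (unpair q).1.length ≠ 4 * m) : Ow W (m + 1) q = Ow W m q := by
  rw [Ow, ext_eq, if_neg]
  intro h1
  apply h
  rw [h1, length_pk]

theorem Ow_high (h : 4 * m ≤ (unpair q).1.length) : Ow W m q = false := by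
  induction m with
  | zero => rfl
  | succ m ih => rw [Ow_ne (by omega), ih (by omega)]

theorem Ow_stable (h : (unpair q).1.length < 4 * m) (d : ℕ) : Ow W (m + d) q = Ow W m q := by
  induction d with
  | zero => rfl
  | succ d ih => rw [← Nat.add_assoc, Ow_ne (by omega), ih]

theorem length_key (q : List Bool) : (unpair q).1.length ≤ q.length := by
  have := unpair_len2 q
  omega

theorem Ow_low (h : (unpair q).1.length < 4 * m) : Ow W m q = OU W q := by
  unfold OU
  have h1 := length_key q
  rcases le_total m (q.length + 1) with h2 | h2
  · obtain ⟨d, hd⟩ := Nat.exists_eq_add_of_le h2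
    rw [hd, Ow_stable h]
  · obtain ⟨d, hd⟩ := Nat.exists_eq_add_of_le h2
    rw [hd, Ow_stable (by omega)]

theorem Ow_eq (W : Oracle) (m : ℕ) (q : List Bool) :
    Ow W m q = if (unpair q).1.length < 4 * m then OU W q else false := by
  split_ifs with h
  · exact Ow_low h
  · exact Ow_high (by omega)

theorem Ow_true (h : Ow W m q = true) : ∃ j < m, (unpair q).1 = pk W j := by
  induction m with
  | zero => simp [Ow] at h
  | succ m ih =>
    rw [Ow, ext_eq] at h
    split_ifs at h with h1
    · exact ⟨m, Nat.lt_succ_self m, h1⟩
    · obtain ⟨j, hj, hj2⟩ := ih h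
      exact ⟨j, by omega, hj2⟩

theorem OU_true (h : OU W q = true) : ∃ j, (unpair q).1 = pk W j := by
  obtain ⟨j, -, hj⟩ := Ow_true h
  exact ⟨j, hj⟩

theorem OU_right (h : (unpair q).1 = pk W m) : OU W q =
    an1 (Ow W m) (fun B => trc B (Ow W (m + 1))) m (unpair q).2 := by
  have h1 : (unpair q).1.length < 4 * (m + 1) := by
    rw [h, length_pk]
    omega
  rw [← Ow_low h1, Ow, ext_eq, if_pos h]

/-- the lower levels depend on the lower keys only -/
theorem Ow_congr {W' : Oracle} (h : ∀ j < m, pk W j = pk W' j) : Ow W m = Ow W' m := by
  induction m with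
  | zero => rfl
  | succ m ih => rw [Ow, Ow, ih fun j hj => h j (by omega), h m (Nat.lt_succ_self m)]

/-- the test of a key -/
theorem OU_check (u : List Bool) : OU W (pairBits u []) = true ↔ ∃ j, u = pk W j := by
  constructor
  · intro h
    obtain ⟨j, hj⟩ := OU_true h
    rw [unpair_pairBits] at hj
    exact ⟨j, hj⟩
  · rintro ⟨j, rfl⟩
    rw [OU_right (m := j) (by rw [unpair_pairBits]), unpair_pairBits]
    rfl

end Pool.Agent.W908.US
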