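import Pool.Agent.W908.U.U1
import Pool.Agent.W908.M.M3

/-! The algorithm. -/

set_option autoImplicit false

namespace Pool.Agent.W908.US

open Pool.Agent.NPC Pool.Agent.H620R2.Gauge Pool.Agent.H622R2
open Pool.Agent.W908.MS (pe pv pi pp scode trc bl upoly_bl filter_lt)
open Pool.Agent.W908.PS (poly_unary)
open Pool.Agent.W908.QS (QAlg qgen qgen_surj qbd qbd_len qbd_ques acc_local cm)

/-- a question to the solver: `v = ⟨⟨x, J⟩, w⟩`, where `w` is the key and the length of `J` is the
number of the heavy key -/
def sqq (e : List Bool) (b : Polynomial ℕ) (v i : List Bool) : List Bool :=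
  pairBits (unpair v).2 (false :: scode e (unpair v).1 i (List.replicate (bl b v) true))

/-- the questions about the heavy key -/
def rq (e : List Bool) (b : Polynomial ℕ) (c : Bool) (v : List Bool) : List (List Bool) :=
  (List.range (bl b v)).map (fun j =>
    sqq e b v (c :: List.replicate (min j (bl b v)) true))

theorem poly_rq (e : List Bool) (b : Polynomial ℕ) (c : Bool) : Poly (rq e b c) := by
  have hb := upoly_bl b
  have h2 : UPoly (fun p : List Bool × ℕ => bl b p.1) := hb.comp (Poly.fst Poly.id)
  have h3 : UPoly (fun p : List Bool × ℕ => min p.2 (bl b p.1)) :=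
    UPoly.of_le (NPC.Poly.min (Poly.snd Poly.id) h2.toPoly) h2 fun a => min_le_right _ _
  have h4 : Poly (fun p : List Bool × ℕ => unpair p.1) := poly_unpair.comp (Poly.fst Poly.id)
  refine NPC.Poly.map (F := fun v j =>
    sqq e b v (c :: List.replicate (min j (bl b v)) true)) hb.range ?_
  exact poly_pairBits (Poly.snd h4) (Poly.cons (NPC.Poly.const false)
    (poly_pairBits (NPC.Poly.const e) (poly_pairBits (Poly.fst h4)
    (poly_pairBits (Poly.cons (NPC.Poly.const c) (poly_unary h3)) (poly_unary h2)))))

/-- the heavy key, from the answers -/
noncomputable def rdk (e : List Bool) (b : Polynomial ℕ) (O : Oracle) (v : List Bool) :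
    List Bool :=
  ((rq e b false v).map O).take (((rq e b true v).map O).filter id).length

theorem isFP_rdk (e : List Bool) (b : Polynomial ℕ) (O : Oracle) :
    IsFP O (fun v => pairBits v (rdk e b O v)) := by
  have h1 : IsFP O (fun v => pairBits v ((rq e b true v).map O)) :=
    IsFP.tt (H := fun p => pairBits p.1 p.2) (poly_rq e b true)
      (poly_pairBits (Poly.fst Poly.id) (Poly.snd Poly.id))
  have hQ : Poly (fun w : List Bool => rq e b false (unpair w).1) :=
    (poly_rq e b false).comp (Poly.fst poly_unpair)
  have hf : Poly (fun p : List Bool × List Bool => (unpair p.1).2.filter id) :=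
    Poly.filter (p := fun _ c => id c) (Poly.snd (poly_unpair.comp (Poly.fst Poly.id)))
      (Poly.snd Poly.id)
  have h2 : IsFP O (fun w => pairBits (unpair w).1
      (((rq e b false (unpair w).1).map O).take ((unpair w).2.filter id).length)) :=
    IsFP.tt (H := fun p => pairBits (unpair p.1).1 (p.2.take ((unpair p.1).2.filter id).length))
      hQ (poly_pairBits (Poly.fst (poly_unpair.comp (Poly.fst Poly.id)))
        (R1.poly_take (Poly.snd Poly.id) (UPoly.length hf)))
  have h3 := h2.comp h1
  simp only [unpair_pairBits] at h3
  exact h3

/-- the next state, from the state and the new key `w = ⟨v, u⟩` and the answer -/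
def nst (p : List Bool × List Bool) : List Bool :=
  if p.2 = [true] then
    pairBits (pairBits (unpair (unpair (unpair p.1).1).1).1 []) (unpair p.1).2
  else pairBits (pairBits (unpair (unpair (unpair p.1).1).1).1
    (true :: (unpair (unpair (unpair p.1).1).1).2)) (unpair (unpair p.1).1).2

theorem poly_nst : Poly nst := by
  have h1 : Poly (fun p : List Bool × List Bool => unpair p.1) :=
    poly_unpair.comp (Poly.fst Poly.id)
  have h2 : Poly (fun p : List Bool × List Bool => unpair (unpair p.1).1) :=
    poly_unpair.comp (Poly.fst h1)
  have h3 : Poly (fun p : List Bool × List Bool => unpair (unpair (unpair p.1).1).1) :=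
    poly_unpair.comp (Poly.fst h2)
  exact Poly.ite (Poly.decide_eq (Poly.snd Poly.id) (NPC.Poly.const _))
    (poly_pairBits (poly_pairBits (Poly.fst h3) (NPC.Poly.const [])) (Poly.snd h1))
    (poly_pairBits (poly_pairBits (Poly.fst h3)
      (Poly.cons (NPC.Poly.const true) (Poly.snd h3))) (Poly.snd h2))

/-- one step -/
noncomputable def stp (e : List Bool) (b : Polynomial ℕ) (O : Oracle) (v : List Bool) :
    List Bool := nst (pairBits v (rdk e b O v), [O (pairBits (rdk e b O v) [])])

theorem isFP_stp (e : List Bool) (b : Polynomial ℕ) (O : Oracle) : IsFP O (stp e b O) := by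
  have hq : Poly (fun w : List Bool => [pairBits (unpair w).2 []]) :=
    Poly.cons (poly_pairBits (Poly.snd poly_unpair) (NPC.Poly.const [])) (NPC.Poly.const [])
  have h2 : IsFP O (fun w => nst (w, [pairBits (unpair w).2 []].map O)) :=
    IsFP.tt (H := nst) hq poly_nst
  have h3 := h2.comp (isFP_rdk e b O)
  simp only [unpair_pairBits, List.map_cons, List.map_nil] at h3
  exact h3

theorem stp_eq (e : List Bool) (b : Polynomial ℕ) (O : Oracle) (x J w : List Bool) :
    stp e b O (pairBits (pairBits x J) w) =
      if O (pairBits (rdk e b O (pairBits (pairBits x J) w)) []) = true then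
        pairBits (pairBits x []) (rdk e b O (pairBits (pairBits x J) w))
      else pairBits (pairBits x (true :: J)) w := by
  unfold stp nst
  simp only [unpair_pairBits, List.cons.injEq, and_true]

/-- the state after `i` steps -/
noncomputable def sti (e : List Bool) (b : Polynomial ℕ) (O : Oracle) (x : List Bool) (i : ℕ) :
    List Bool := (stp e b O)^[i] (pairBits (pairBits x []) [])

theorem length_rdk (e : List Bool) (b : Polynomial ℕ) (O : Oracle) (x J w : List Bool) :
    (rdk e b O (pairBits (pairBits x J) w)).length ≤ b.eval x.length := by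
  unfold rdk
  rw [List.length_take, List.length_map]
  unfold rq
  rw [List.length_map, List.length_range]
  unfold bl
  rw [unpair_pairBits, unpair_pairBits]
  exact min_le_right _ _

theorem sti_form (e : List Bool) (b : Polynomial ℕ) (O : Oracle) (x : List Bool) (i : ℕ) :
    ∃ J w, sti e b O x i = pairBits (pairBits x J) w ∧ J.length ≤ i ∧
      w.length ≤ b.eval x.length := by
  induction i with
  | zero => exact ⟨[], [], rfl, Nat.zero_le _, Nat.zero_le _⟩
  | succ i ih =>
    obtain ⟨J, w, h1, h2, h3⟩ := ih
    unfold sti at h1 ⊢
    rw [Function.iterate_succ_apply', h1, stp_eq]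
    split_ifs with h4
    · exact ⟨_, _, rfl, Nat.zero_le _, length_rdk e b O x J w⟩
    · refine ⟨_, _, rfl, ?_, h3⟩
      rw [List.length_cons]
      omega

theorem isFP_loop (e : List Bool) (b T : Polynomial ℕ) (O : Oracle) :
    IsFP O (fun x => sti e b O x (T.eval x.length)) := by
  have hg : Poly (fun x : List Bool => pairBits (pairBits x []) []) :=
    poly_pairBits (poly_pairBits Poly.id (NPC.Poly.const [])) (NPC.Poly.const [])
  have h := (isFP_stp e b O).loop hg T
    (4 * Polynomial.X + 3 + 2 * T + b) (fun x i hi => by
    obtain ⟨J, w, h1, h2, h3⟩ := sti_form e b O x i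
    unfold sti at h1
    rw [h1, A2.length_pairBits, A2.length_pairBits]
    simp only [Polynomial.eval_add, Polynomial.eval_mul, Polynomial.eval_X,
      Polynomial.eval_ofNat]
    omega)
  exact h

/-- the last question -/
def lq (e : List Bool) (b : Polynomial ℕ) (v : List Bool) : List (List Bool) := [sqq e b v []]

theorem poly_lq (e : List Bool) (b : Polynomial ℕ) : Poly (lq e b) :=
  Poly.cons (poly_pairBits (Poly.snd poly_unpair) (Poly.cons (NPC.Poly.const false)
    (poly_pairBits (NPC.Poly.const e) (poly_pairBits (Poly.fst poly_unpair)
    (poly_pairBits (NPC.Poly.const []) (poly_unary (upoly_bl b))))))) (NPC.Poly.const [])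

/-- the algorithm -/
noncomputable def dec (e : List Bool) (b T : Polynomial ℕ) (O : Oracle) (x : List Bool) :
    List Bool := (lq e b (sti e b O x (T.eval x.length))).map O

theorem isFP_dec (e : List Bool) (b T : Polynomial ℕ) (O : Oracle) :
    IsFP O (dec e b T O) := by
  have h3 : IsFP O (fun v => (lq e b v).map O) :=
    IsFP.tt (H := fun p => p.2) (poly_lq e b) (Poly.snd Poly.id)
  exact h3.comp (isFP_loop e b T O)

/-- the answer of the solver to a question with the right key -/
theorem OU_sqq {W : Oracle} {e x J i : List Bool} {b : Polynomial ℕ} {m B : ℕ}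
    (hB : b.eval x.length = B) :
    OU W (sqq e b (pairBits (pairBits x J) (pk W m)) i) =
      sv (trc B (Ow W (m + 1))) B m ((qgen e).1.C x) J.length i := by
  have hbl : bl b (pairBits (pairBits x J) (pk W m)) = B := by
    unfold bl
    rw [unpair_pairBits, unpair_pairBits]
    exact hB
  unfold sqq
  rw [hbl, unpair_pairBits, OU_right (m := m) (by rw [unpair_pairBits]), unpair_pairBits]
  simp only [an1]
  have e1 : pe (scode e (pairBits x J) i (List.replicate B true)) = e := by
    simp only [pe, scode, unpair_pairBits]
  have e2 : pv (scode e (pairBits x J) i (List.replicate B true)) = pairBits x J := by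
    simp only [pv, scode, unpair_pairBits]
  have e3 : pi (scode e (pairBits x J) i (List.replicate B true)) = i := by
    simp only [pi, scode, unpair_pairBits]
  have e4 : (pp (scode e (pairBits x J) i (List.replicate B true))).length = B := by
    simp only [pp, scode, unpair_pairBits, List.length_replicate]
  rw [e1, e2, e3, e4, unpair_pairBits]

/-- the heavy key is read correctly -/
theorem rdk_val {W : Oracle} {e x J : List Bool} {b : Polynomial ℕ} {m B : ℕ} {u : List Bool}
    (hB : b.eval x.length = B)
    (hu : nk (trc B (Ow W (m + 1))) B m ((qgen e).1.C x) J.length = u) (hl : u.length ≤ B) :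
    rdk e b (OU W) (pairBits (pairBits x J) (pk W m)) = u := by
  have hbl : bl b (pairBits (pairBits x J) (pk W m)) = B := by
    unfold bl
    rw [unpair_pairBits, unpair_pairBits]
    exact hB
  have h1 : (rq e b true (pairBits (pairBits x J) (pk W m))).map (OU W) =
      (List.range B).map (fun j => decide (j < u.length)) := by
    unfold rq
    rw [hbl, List.map_map]
    refine List.map_congr_left fun j hj => ?_
    rw [List.mem_range] at hj
    show OU W (sqq _ _ _ _) = _
    rw [OU_sqq hB]
    unfold sv
    rw [hu]
    show decide ((List.replicate (min j B) true).length < u.length) = _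
    rw [List.length_replicate, min_eq_left hj.le]
  have h2 : (rq e b false (pairBits (pairBits x J) (pk W m))).map (OU W) =
      (List.range B).map (fun j => u.getD j false) := by
    unfold rq
    rw [hbl, List.map_map]
    refine List.map_congr_left fun j hj => ?_
    rw [List.mem_range] at hj
    show OU W (sqq _ _ _ _) = _
    rw [OU_sqq hB]
    unfold sv
    rw [hu]
    show u.getD (List.replicate (min j B) true).length false = _
    rw [List.length_replicate, min_eq_left hj.le]
  unfold rdk
  rw [h1, h2, List.filter_map, List.length_map]
  have e3 : (List.filter (id ∘ fun j => decide (j < u.length)) (List.range B)).length =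
      u.length := filter_lt hl
  rw [e3]
  refine List.ext_getElem ?_ fun i h3 h4 => ?_
  · rw [List.length_take, List.length_map, List.length_range, min_eq_left hl]
  · rw [List.getElem_take, List.getElem_map, List.getElem_range]
    rw [List.getD_eq_getElem?_getD, List.getElem?_eq_getElem h4]
    rfl

end Pool.Agent.W908.US
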