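import Pool.Agent.W908.U.U2

/-! The algorithm is right, for all keys. -/

set_option autoImplicit false

namespace Pool.Agent.W908.US

open Pool.Agent.NPC Pool.Agent.H620R2.Gauge Pool.Agent.H622R2 Pool.Agent.H676 Finset
open Pool.Agent.W908.MS (pe pv pi pp scode trc bl upoly_bl filter_lt)
open Pool.Agent.W908.QS (QAlg qgen qgen_surj qbd qbd_len qbd_ques acc_local cm cm_le cm_nonneg
  mass_sum acc_close)

variable {A : Oracle} {B m L : ℕ} {c : List Unit × List Gate}

theorem mem_HK {u : List Bool} : u ∈ HK A B m c ↔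
    u.length ≤ B ∧ 4 * m < u.length ∧ 1 / (B : ℝ) < cm A (uk u) c := by
  unfold HK
  rw [Finset.mem_filter]
  exact ⟨fun h => ⟨W_length_of_mem h.1, h.2⟩, fun h => ⟨W_mem_strs h.1, h.2⟩⟩

theorem sum_uk (S : Finset (List Bool)) (q : List Bool) : ∑ u ∈ S, uk u q ≤ 1 := by
  unfold uk
  rw [Finset.sum_ite_eq]
  split_ifs <;> norm_num

theorem card_HK (hc1 : c.2.length ≤ L) (hB0 : 0 < B) : (HK A B m c).card ≤ L * B := by
  have hB1 : (0 : ℝ) < B := by exact_mod_cast hB0
  have h1 : ((HK A B m c).card : ℝ) * (1 / B) ≤ c.2.length * 1 := by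
    rw [← nsmul_eq_mul, ← Finset.sum_const]
    refine (Finset.sum_le_sum (g := fun u => cm A (uk u) c) fun u hu =>
      (mem_HK.1 hu).2.2.le).trans ?_
    have h2 : ∑ u ∈ HK A B m c, cm A (uk u) c = cm A (fun q => ∑ u ∈ HK A B m c, uk u q) c := by
      unfold cm
      rw [mass_sum]
    rw [h2]
    exact cm_le (by norm_num) _ _ fun q k _ y _ => sum_uk _ y
  rw [mul_one_div, div_le_iff₀ hB1, mul_one] at h1
  have h3 : (c.2.length : ℝ) * B ≤ L * B := by
    apply mul_le_mul_of_nonneg_right _ hB1.le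
    exact_mod_cast hc1
  exact_mod_cast h1.trans h3

theorem HK_len (hc2 : ∀ q k, Sum.inr (true, q, k) ∈ c.2 → q.length ≤ L) {u : List Bool}
    (hu : u ∈ HK A B m c) : u.length ≤ L := by
  by_contra hlt
  have h1 : cm A (uk u) c ≤ c.2.length * 0 := cm_le le_rfl _ _ fun q k hq y hy => by
    unfold uk
    rw [if_neg]
    intro h
    have h2 := length_key y
    have h3 := hc2 q k hq
    rw [h] at h2
    omega
  have h2 := (mem_HK.1 hu).2.2
  have h3 : (0 : ℝ) ≤ 1 / (B : ℝ) := by positivity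
  linarith

theorem nk_cases (A : Oracle) (B m : ℕ) (c : List Unit × List Gate) (j : ℕ) :
    (nk A B m c j ∈ HK A B m c ∧ j < (HK A B m c).card) ∨ nk A B m c j = [true] := by
  unfold nk
  by_cases h : j < (HK A B m c).toList.length
  · left
    rw [List.getD_eq_getElem _ _ h]
    refine ⟨Finset.mem_toList.1 (List.getElem_mem h), ?_⟩
    rwa [Finset.length_toList] at h
  · right
    rw [List.getD_eq_default _ _ (by omega)]

theorem exists_nk {u : List Bool} (hu : u ∈ HK A B m c) :
    ∃ j < (HK A B m c).card, nk A B m c j = u := by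
  obtain ⟨j, hj, hj2⟩ := List.mem_iff_getElem.1 (Finset.mem_toList.2 hu)
  refine ⟨j, by rwa [Finset.length_toList] at hj, ?_⟩
  unfold nk
  rw [List.getD_eq_getElem _ _ hj, hj2]

/-- no heavy key of a higher level is right -/
def Stuck (W : Oracle) (B m : ℕ) (c : List Unit × List Gate) : Prop :=
  ∀ j, pk W j ∉ HK (trc B (Ow W (m + 1))) B m c

theorem ne_true {W : Oracle} {j : ℕ} : pk W j ≠ [true] := by
  intro h
  have h1 := congrArg List.length h
  rw [length_pk, List.length_singleton] at h1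
  omega

theorem pk_zero (W : Oracle) : pk W 0 = [] := by
  rw [← List.length_eq_zero_iff, length_pk]

/-- the invariant of the loop -/
theorem inv {W : Oracle} {e x : List Bool} {b : Polynomial ℕ} {K : ℕ}
    (hB : b.eval x.length = B) (hB0 : 0 < B)
    (hc1 : ((qgen e).1.C x).2.length ≤ L)
    (hc2 : ∀ q k, Sum.inr (true, q, k) ∈ ((qgen e).1.C x).2 → q.length ≤ L)
    (hK : L * B = K) (t : ℕ) :
    ∃ m J, sti e b (OU W) x t = pairBits (pairBits x J) (pk W m) ∧ 4 * m ≤ L ∧
      (Stuck W B m ((qgen e).1.C x) ∨ (t ≤ m * (K + 1) + J.length ∧ ∀ i < J.length, ∀ j,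
        nk (trc B (Ow W (m + 1))) B m ((qgen e).1.C x) i ≠ pk W j)) := by
  induction t with
  | zero =>
    refine ⟨0, [], ?_, Nat.zero_le _, Or.inr ⟨Nat.zero_le _, fun i hi => ?_⟩⟩
    · rw [pk_zero]
      rfl
    · rw [List.length_nil] at hi
      omega
  | succ t ih =>
    obtain ⟨m, J, h1, h2, h3⟩ := ih
    obtain ⟨c, hc⟩ : ∃ c, c = (qgen e).1.C x := ⟨_, rfl⟩
    rw [← hc] at h3 hc1 hc2 ⊢
    obtain ⟨A, hA⟩ : ∃ A, A = trc B (Ow W (m + 1)) := ⟨_, rfl⟩
    obtain ⟨u, hu⟩ : ∃ u, nk A B m c J.length = u := ⟨_, rfl⟩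
    have hl : u.length ≤ B := by
      rcases nk_cases A B m c J.length with h | h
      · rw [hu] at h
        exact (mem_HK.1 h.1).1
      · rw [← hu, h, List.length_singleton]
        omega
    have hst : sti e b (OU W) x (t + 1) = if OU W (pairBits u []) = true then
        pairBits (pairBits x []) u else pairBits (pairBits x (true :: J)) (pk W m) := by
      have h4 := rdk_val (W := W) (e := e) (x := x) (J := J) (b := b) (m := m) (B := B) (u := u)
        hB (by rw [← hc, ← hA]; exact hu) hl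
      unfold sti at h1 ⊢
      rw [Function.iterate_succ_apply', h1, stp_eq, h4]
    rw [hst]
    by_cases hr : ∃ j, u = pk W j
    · rw [if_pos ((OU_check u).2 hr)]
      obtain ⟨j, hj⟩ := hr
      rcases nk_cases A B m c J.length with h | h
      · rw [hu] at h
        have h5 := (mem_HK.1 h.1).2.1
        have h6 := HK_len hc2 h.1
        rw [hj, length_pk] at h5 h6
        refine ⟨j, [], by rw [hj], h6, Or.inr ⟨?_, fun i hi => ?_⟩⟩
        · rcases h3 with h3 | ⟨h3, -⟩
          · exfalso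
            refine h3 j ?_
            rw [← hA, ← hj]
            exact h.1
          · have h7 := card_HK (A := A) (m := m) (L := L) hc1 hB0
            have h8 : (m + 1) * (K + 1) ≤ j * (K + 1) := Nat.mul_le_mul_right _ (by omega)
            have h9 : (m + 1) * (K + 1) = m * (K + 1) + (K + 1) := by ring
            rw [List.length_nil]
            omega
        · rw [List.length_nil] at hi
          omega
      · exfalso
        rw [hu, hj] at h
        exact ne_true h
    · rw [if_neg (fun h => hr ((OU_check u).1 h))]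
      refine ⟨m, true :: J, rfl, h2, ?_⟩
      rcases h3 with h3 | ⟨h3, h4⟩
      · exact Or.inl h3
      · right
        rw [List.length_cons]
        refine ⟨by omega, fun i hi j hj => ?_⟩
        rcases Nat.lt_succ_iff_lt_or_eq.1 hi with h5 | h5
        · exact h4 i h5 j hj
        · rw [h5, ← hA, hu] at hj
          exact hr ⟨j, hj⟩

/-- at the end no heavy key of a higher level is right -/
theorem final {W : Oracle} {e x : List Bool} {b : Polynomial ℕ} {K t : ℕ}
    (hB : b.eval x.length = B) (hB0 : 0 < B)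
    (hc1 : ((qgen e).1.C x).2.length ≤ L)
    (hc2 : ∀ q k, Sum.inr (true, q, k) ∈ ((qgen e).1.C x).2 → q.length ≤ L)
    (hK : L * B = K) (ht : (L + 1) * (K + 1) ≤ t) :
    ∃ m J, sti e b (OU W) x t = pairBits (pairBits x J) (pk W m) ∧
      Stuck W B m ((qgen e).1.C x) := by
  obtain ⟨m, J, h1, h2, h3⟩ := inv (W := W) hB hB0 hc1 hc2 hK t
  refine ⟨m, J, h1, ?_⟩
  rcases h3 with h3 | ⟨h3, h4⟩
  · exact h3
  · intro j hj
    obtain ⟨i, hi, hi2⟩ := exists_nk hj
    have h5 := card_HK (A := trc B (Ow W (m + 1))) (m := m) (L := L) hc1 hB0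
    have h6 : ¬ i < J.length := fun h => h4 i h j hi2
    have h8 : (m + 1) * (K + 1) ≤ (L + 1) * (K + 1) := Nat.mul_le_mul_right _ (by omega)
    have h9 : (m + 1) * (K + 1) = m * (K + 1) + (K + 1) := by ring
    omega

/-- the last world is good -/
theorem close {W : Oracle} (hc2 : ∀ q k, Sum.inr (true, q, k) ∈ c.2 → q.length ≤ L)
    (hLB : 4 * L < B) (hs : Stuck W B m c) :
    |accProb (trc B (Ow W (m + 1))) c - accProb (OU W) c| ≤
      4 * Real.sqrt (c.2.length * (L * (1 / B))) := by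
  obtain ⟨A, hA⟩ : ∃ A, A = trc B (Ow W (m + 1)) := ⟨_, rfl⟩
  obtain ⟨w, hw⟩ : ∃ w : List Bool → ℝ, w = fun q =>
    ∑ j ∈ Finset.Ioc m L, uk (pk W j) q := ⟨_, rfl⟩
  obtain ⟨A', hA'⟩ : ∃ A' : Oracle, A' = fun q => if q.length ≤ L then OU W q else A q :=
    ⟨_, rfl⟩
  rw [← hA]
  have h1 : accProb (OU W) c = accProb A' c := by
    refine accProb_local (N := 0) fun q k hq y hy => ?_
    rw [hA']
    beta_reduce
    rw [if_pos]
    have := hc2 q k hq
    omega
  rw [h1]
  have hw0 : ∀ q, 0 ≤ w q := by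
    intro q
    rw [hw]
    exact Finset.sum_nonneg fun x _ => uk_nonneg _ _
  refine (acc_close (A := A) (A' := A') hw0 (fun q hq => ?_) c).trans ?_
  · rw [hA'] at hq
    beta_reduce at hq
    split_ifs at hq with hl
    swap
    · exact absurd rfl hq
    have h2 : A q = Ow W (m + 1) q := by
      rw [hA]
      unfold trc
      rw [if_pos (by omega)]
    rw [h2, Ow_eq] at hq
    split_ifs at hq with h3
    · exact absurd rfl hq
    have h4 : OU W q = true := by
      cases h5 : OU W q with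
      | false => exact absurd h5.symm hq
      | true => rfl
    obtain ⟨j, hj⟩ := OU_true h4
    have h5 := length_key q
    have h6 := h3
    rw [hj, length_pk] at h5 h6
    rw [hw]
    refine le_trans ?_ (Finset.single_le_sum (f := fun j => uk (pk W j) q)
      (fun x _ => uk_nonneg _ _) (Finset.mem_Ioc.2 ⟨by omega, by omega⟩ : j ∈ Finset.Ioc m L))
    unfold uk
    rw [if_pos hj]
  · apply mul_le_mul_of_nonneg_left _ (by norm_num)
    apply Real.sqrt_le_sqrt
    apply mul_le_mul_of_nonneg_left _ (Nat.cast_nonneg _)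
    have h2 : cm A w c = ∑ j ∈ Finset.Ioc m L, cm A (uk (pk W j)) c := by
      rw [hw]
      unfold cm
      rw [mass_sum]
    rw [h2]
    have hB2 : (0 : ℝ) ≤ 1 / B := by positivity
    refine (Finset.sum_le_sum (g := fun _ => 1 / (B : ℝ)) fun j hj => ?_).trans ?_
    · rw [Finset.mem_Ioc] at hj
      by_contra hlt
      push Not at hlt
      refine hs j (mem_HK.2 ⟨?_, ?_, ?_⟩)
      · rw [length_pk]
        omega
      · rw [length_pk]
        omega
      · rw [← hA]
        exact hlt
    · rw [Finset.sum_const, nsmul_eq_mul, Nat.card_Ioc]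
      apply mul_le_mul_of_nonneg_right _ hB2
      exact_mod_cast Nat.sub_le _ _

/-- Quantum circuits with a promise can be replaced, for all keys. -/
theorem promiseU (W : Oracle) (e : List Bool) : ∃ D, IsFP (OU W) D ∧ ∀ x : List Bool,
    (2 / 3 ≤ accProb (OU W) ((qgen e).1.C x) → D x = [true]) ∧
    (accProb (OU W) ((qgen e).1.C x) ≤ 1 / 3 → D x ≠ [true]) := by
  classical
  obtain ⟨Lp, hLp⟩ : ∃ Lp : Polynomial ℕ, Lp = qbd (qgen e).1 := ⟨_, rfl⟩
  obtain ⟨b, hb⟩ : ∃ b : Polynomial ℕ, b = Polynomial.C 1024 * (Lp + 1) ^ 2 := ⟨_, rfl⟩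
  obtain ⟨T, hT⟩ : ∃ T : Polynomial ℕ, T = (Lp + 1) * (Lp * b + 1) := ⟨_, rfl⟩
  refine ⟨dec e b T (OU W), isFP_dec e b T (OU W), fun x => ?_⟩
  obtain ⟨L, hL⟩ : ∃ L, L = Lp.eval x.length := ⟨_, rfl⟩
  obtain ⟨B, hB⟩ : ∃ B, b.eval x.length = B := ⟨_, rfl⟩
  have hBe : B = 1024 * (L + 1) ^ 2 := by
    rw [← hB, hb, hL]
    simp only [Polynomial.eval_mul, Polynomial.eval_pow, Polynomial.eval_add, Polynomial.eval_C,
      Polynomial.eval_one]
  have hTe : T.eval x.length = (L + 1) * (L * B + 1) := by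
    rw [hT, hL, ← hB]
    simp only [Polynomial.eval_mul, Polynomial.eval_add, Polynomial.eval_one]
  obtain ⟨c, hc⟩ : ∃ c, c = (qgen e).1.C x := ⟨_, rfl⟩
  have hc1 : c.2.length ≤ L := by
    rw [hc, hL, hLp]
    exact qbd_len _ _
  have hc2 : ∀ q k, Sum.inr (true, q, k) ∈ c.2 → q.length ≤ L := by
    rw [hc, hL, hLp]
    exact qbd_ques _ _
  have hB0 : 0 < B := by
    rw [hBe]
    positivity
  have hLB : 4 * L < B := by
    rw [hBe]
    nlinarith [Nat.zero_le L]
  obtain ⟨m, J, h1, h2⟩ := final (W := W) (e := e) (x := x) (b := b) (L := L) hB hB0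
    (by rw [← hc]; exact hc1) (by rw [← hc]; exact hc2) rfl (le_of_eq hTe.symm)
  rw [← hc] at h2 ⊢
  have hdec : dec e b T (OU W) x =
      [decide (1 / 2 ≤ accProb (trc B (Ow W (m + 1))) c)] := by
    unfold dec lq
    rw [h1, List.map_cons, List.map_nil, OU_sqq hB, ← hc]
    rfl
  have hcl := close hc2 hLB h2
  have hsq : 4 * Real.sqrt (c.2.length * (L * (1 / (B : ℝ)))) ≤ 1 / 8 := by
    have hL0 : (0 : ℝ) ≤ L := Nat.cast_nonneg _
    have hB1 : (0 : ℝ) < B := by exact_mod_cast hB0
    have h3 : c.2.length * (L * (1 / (B : ℝ))) ≤ (1 / 32 : ℝ) ^ 2 := by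
      calc c.2.length * (L * (1 / (B : ℝ))) ≤ L * (L * (1 / (B : ℝ))) := by
            apply mul_le_mul_of_nonneg_right _ (by positivity)
            exact_mod_cast hc1
        _ = (L * L) / B := by ring
        _ ≤ (1 / 32 : ℝ) ^ 2 := by
            rw [div_le_iff₀ hB1, hBe]
            push_cast
            nlinarith
    have h4 := Real.sqrt_le_sqrt h3
    rw [Real.sqrt_sq (by norm_num)] at h4
    linarith
  have h3 := hcl.trans hsq
  rw [abs_le] at h3
  rw [hdec]
  constructor
  · intro h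
    rw [decide_eq_true]
    linarith
  · intro h
    rw [decide_eq_false]
    · simp
    · push Not
      linarith

end Pool.Agent.W908.US
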