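import Pool.Agent.W908.U.U3

/-! The simulations do not ask about keys of higher levels. -/

set_option autoImplicit false

namespace Pool.Agent.W908.US

open Pool.Agent.NPC Pool.Agent.H620R2.Gauge Pool.Agent.H622R2 Pool.Agent.H676 Finset H568R2
open Pool.Agent.W908.PS (Rare pre_local idx_lt_pow)
open Pool.Agent.W908.SP (mem_strsOf' card_strsOf' idx_inj Ex_owr Ex_unif_av unif_nn unif_sm)
open Pool.Agent.H591R3.PHG.Proj (owr owr_e owr_off owr_owr)
open Pool.Agent.W908.KS (kp length_kp kp_inj)
open Pool.Agent.W908.TS (ky2 length_ky2 num4 ky2_local)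

/-- the level of a question -/
def lv (q : List Bool) : ℕ := (unpair q).1.length / 4

theorem lv_le (q : List Bool) : lv q ≤ q.length := by
  unfold lv
  have := length_key q
  omega

/-- the questions of the simulation of the statement `z` -/
noncomputable def Qz (W : Oracle) (z : List Bool) : Finset (List Bool) :=
  SP.QQ (Ow W z.length) z

theorem Qz_congr {W W' : Oracle} {z : List Bool}
    (h : ∀ j < z.length, pk W j = pk W' j) : Qz W z = Qz W' z := by
  unfold Qz
  rw [Ow_congr h]

/-- the question contains the right key of a level that is at least `n` -/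
def Gs (W : Oracle) (n : ℕ) (q : List Bool) : Prop := n ≤ lv q ∧ (unpair q).1 = pk W (lv q)

/-- the simulation of the statement `z` asks about a higher level -/
def Hit (W : Oracle) (z : List Bool) : Prop := ∃ q ∈ Qz W z, Gs W z.length q

theorem TT_OU {W : Oracle} {z : List Bool} (h : ¬ Hit W z) :
    SP.TT (OU W) z ↔ SP.TT (Ow W z.length) z := by
  refine (SP.TT_congr (O := Ow W z.length) (O' := OU W) (z := z) fun q hq => ?_).1
  rw [Ow_eq]
  split_ifs with h1
  · rfl
  · cases h2 : OU W q with
    | false => rfl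
    | true =>
      exfalso
      obtain ⟨j, hj⟩ := OU_true h2
      have h3 : lv q = j := by
        unfold lv
        rw [hj, length_pk]
        omega
      have h4 : (unpair q).1.length = 4 * j := by rw [hj, length_pk]
      refine h ⟨q, hq, ?_, ?_⟩
      · omega
      · rw [h3, hj]

open Classical in
/-- the probability that one question is asked and right -/
theorem Ex_guess {N n B : ℕ} (z : List Bool) (hz : z.length = n)
    (hN : 2 ^ (9 * B + 4) ≤ N) {q : List Bool} (hq : q.length ≤ B) :
    Ex unif (fun a : Fin N → Bool => if q ∈ Qz (orc N a) z ∧ Gs (orc N a) n q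
      then (1 : ℝ) else 0) ≤
    Ex unif (fun a : Fin N → Bool => (1 / 16 : ℝ) ^ n * if q ∈ Qz (orc N a) z
      then (1 : ℝ) else 0) := by
  by_cases hn : n ≤ lv q
  · obtain ⟨r, hr⟩ : ∃ r, r = List.replicate (lv q) true := ⟨_, rfl⟩
    have hrl : r.length = lv q := by rw [hr, List.length_replicate]
    have hlq := lv_le q
    have hlen : ∀ i : Fin (4 * lv q), (kp r i.val).length ≤ 9 * B + 3 := by
      intro i
      have h2 := i.2
      rw [length_kp, hrl]
      omega
    obtain ⟨e, he⟩ : ∃ e : Fin (4 * lv q) → Fin N, ∀ i, (e i).val = idx (kp r i.val) :=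
      ⟨fun i => ⟨idx (kp r i.val), (idx_lt_pow (hlen i)).trans_le hN⟩, fun i => rfl⟩
    have hinj : Function.Injective e := by
      intro i i' h
      have h1 : idx (kp r i.val) = idx (kp r i'.val) := by
        rw [← he, ← he, h]
      exact Fin.ext (kp_inj (idx_inj h1)).2
    rw [Ex_owr e hinj]
    refine Ex_mono unif_nn fun a => ?_
    have hon : ∀ (v : Fin (4 * lv q) → Bool), pk (orc N (owr e a v)) (lv q) =
        List.ofFn v := by
      intro v
      unfold pk
      rw [← hr]
      refine List.ext_getElem ?_ fun i h1 h2 => ?_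
      · rw [List.length_ofFn, length_ky2, hrl]
      · rw [List.length_ofFn] at h2
        rw [List.getElem_ofFn]
        have h3 : (ky2 (orc N (owr e a v)) r)[i] = orc N (owr e a v) (kp r i) := by
          simp only [ky2, List.getElem_map, List.getElem_range]
        rw [h3]
        unfold orc
        have h4 : idx (kp r i) < N := by
          have := (e ⟨i, h2⟩).2
          rw [he] at this
          exact this
        rw [dif_pos h4]
        have h5 : (⟨idx (kp r i), h4⟩ : Fin N) = e ⟨i, h2⟩ := Fin.ext (he ⟨i, h2⟩).symm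
        rw [h5]
        exact owr_e hinj a v _
    have hoff : ∀ (v : Fin (4 * lv q) → Bool), Qz (orc N (owr e a v)) z =
        Qz (orc N a) z := by
      intro v
      refine Qz_congr fun j hj => ?_
      unfold pk ky2
      refine List.map_congr_left fun i _ => ?_
      unfold orc
      split_ifs with h
      · refine owr_off _ _ ?_
        rintro ⟨j', hj'⟩
        have h1 := congrArg Fin.val hj'
        rw [he] at h1
        have h2 := congrArg List.length (kp_inj (idx_inj h1)).1
        rw [hrl, List.length_replicate] at h2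
        omega
      · rfl
    simp only [hoff]
    by_cases hqa : q ∈ Qz (orc N a) z
    · rw [if_pos hqa, mul_one]
      have e1 : ∀ v : Fin (4 * lv q) → Bool,
          (if q ∈ Qz (orc N a) z ∧ Gs (orc N (owr e a v)) n q then (1 : ℝ) else 0) =
          if List.ofFn v = (unpair q).1 then (1 : ℝ) else 0 := by
        intro v
        congr 1
        refine propext ?_
        unfold Gs
        rw [hon]
        exact ⟨fun h => h.2.2.symm, fun h => ⟨hqa, hn, h.symm⟩⟩
      simp only [e1]
      rw [Ex_unif_av, Finset.sum_boole, Fintype.card_fin]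
      have h2 : (univ.filter (fun v : Fin (4 * lv q) → Bool =>
          List.ofFn v = (unpair q).1)).card ≤ 1 := by
        rw [Finset.card_le_one]
        intro v hv v' hv'
        rw [Finset.mem_filter] at hv hv'
        exact List.ofFn_injective (hv.2.trans hv'.2.symm)
      have h3 : ((univ.filter (fun v : Fin (4 * lv q) → Bool =>
          List.ofFn v = (unpair q).1)).card : ℝ) ≤ 1 := by exact_mod_cast h2
      rw [one_div, inv_pow, ← one_div]
      refine (div_le_div_of_nonneg_right h3 (by positivity)).trans ?_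
      apply one_div_le_one_div_of_le (by positivity)
      calc (16 : ℝ) ^ n = 2 ^ (4 * n) := by rw [pow_mul]; norm_num
        _ ≤ 2 ^ (4 * lv q) := pow_le_pow_right₀ (by norm_num) (by omega)
    · rw [if_neg hqa, mul_zero]
      have e1 : ∀ v : Fin (4 * lv q) → Bool,
          (if q ∈ Qz (orc N a) z ∧ Gs (orc N (owr e a v)) n q then (1 : ℝ) else 0) = 0 := by
        intro v
        rw [if_neg fun h => hqa h.1]
      simp only [e1]
      exact (Ex_const unif_sm _).le
  · refine Ex_mono unif_nn fun a => ?_
    rw [if_neg fun h => hn h.2.1]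
    have h1 : (0 : ℝ) ≤ if q ∈ Qz (orc N a) z then (1 : ℝ) else 0 := by split_ifs <;> norm_num
    positivity

open Classical in
/-- the probability for one statement -/
theorem Ex_Hit {N n B : ℕ} (z : List Bool) (hz : z.length = n)
    (hB : ∀ W : Oracle, ∀ q ∈ Qz W z, q.length ≤ B) (hN : 2 ^ (9 * B + 4) ≤ N) :
    Ex unif (fun a : Fin N → Bool => if Hit (orc N a) z then (1 : ℝ) else 0) ≤
      (1 / 8 : ℝ) ^ n := by
  have h1 : ∀ a : Fin N → Bool, (if Hit (orc N a) z then (1 : ℝ) else 0) ≤
      ∑ q ∈ W_strs B, if q ∈ Qz (orc N a) z ∧ Gs (orc N a) n q then (1 : ℝ) else 0 := by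
    intro a
    by_cases hE : Hit (orc N a) z
    · rw [if_pos hE]
      obtain ⟨q, hq, hq2⟩ := hE
      rw [hz] at hq2
      refine le_trans ?_ (Finset.single_le_sum (f := fun q => if q ∈ Qz (orc N a) z ∧
        Gs (orc N a) n q then (1 : ℝ) else 0)
        (fun x _ => by split_ifs <;> norm_num) (W_mem_strs (hB _ q hq)))
      rw [if_pos ⟨hq, hq2⟩]
    · rw [if_neg hE]
      exact Finset.sum_nonneg fun x _ => by split_ifs <;> norm_num
  refine (Ex_mono unif_nn h1).trans ?_
  rw [Ex_sum]
  refine (Finset.sum_le_sum fun q hq => Ex_guess z hz hN (W_length_of_mem hq)).trans ?_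
  rw [← Ex_sum]
  refine (Ex_mono unif_nn (G := fun _ => (1 / 8 : ℝ) ^ n) fun a => ?_).trans
    (le_of_eq (Ex_const unif_sm _))
  rw [← Finset.mul_sum, Finset.sum_boole]
  have h2 : ((W_strs B).filter (fun q => q ∈ Qz (orc N a) z)).card ≤ 2 ^ n := by
    refine le_trans (Finset.card_le_card fun q hq => (Finset.mem_filter.1 hq).2) ?_
    rw [← hz]
    exact SP.card_QQ _ z
  have h3 : (((W_strs B).filter (fun q => q ∈ Qz (orc N a) z)).card : ℝ) ≤ 2 ^ n := by
    exact_mod_cast h2
  calc (1 / 16 : ℝ) ^ n * (((W_strs B).filter (fun q => q ∈ Qz (orc N a) z)).card : ℝ) ≤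
      (1 / 16 : ℝ) ^ n * 2 ^ n := mul_le_mul_of_nonneg_left h3 (by positivity)
    _ = (1 / 8 : ℝ) ^ n := by
      rw [← mul_pow]
      norm_num

theorem exists_bd (n : ℕ) : ∃ B : ℕ, ∀ z : List Bool, z.length ≤ n → ∀ W : Oracle,
    ∀ q ∈ Qz W z, q.length ≤ B := by
  have h1 : ∀ z : List Bool, ∃ B, ∀ W : Oracle, ∀ q ∈ Qz W z, q.length ≤ B := by
    intro z
    obtain ⟨B, hB⟩ := SP.qs_bound (SP.mm z) (SP.xx z) (SP.rr z)
    refine ⟨B, fun W q hq => ?_⟩
    unfold Qz SP.QQ at hq
    rw [List.mem_toFinset] at hq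
    exact hB _ _ [] (by simp) q hq
  choose f hf using h1
  obtain ⟨B, hB⟩ := SP.finite_bound f n
  exact ⟨B, fun z hz W q hq => (hf z W q hq).trans (hB z hz)⟩

/-- almost all simulations are right -/
def GoodH (W : Oracle) : Prop := ∃ m₀ : ℕ, ∀ z : List Bool, m₀ ≤ z.length → ¬ Hit W z

theorem pk_local {W W' : Oracle} {D j : ℕ} (h : ∀ q : List Bool, q.length ≤ D → W q = W' q)
    (hj : 9 * j + 3 ≤ D) : pk W j = pk W' j := by
  unfold pk
  refine ky2_local h ?_
  rw [List.length_replicate]
  exact hj

theorem Hit_local {W W' : Oracle} {z : List Bool} {B : ℕ}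
    (hB : ∀ W : Oracle, ∀ q ∈ Qz W z, q.length ≤ B)
    (h : ∀ q : List Bool, q.length ≤ 9 * (B + z.length) + 3 → W q = W' q) :
    Hit W z ↔ Hit W' z := by
  have h1 : Qz W z = Qz W' z := Qz_congr fun j hj => pk_local h (by omega)
  unfold Hit
  rw [h1]
  refine exists_congr fun q => and_congr_right fun hq => ?_
  unfold Gs
  have h2 := lv_le q
  have h3 := hB _ q hq
  rw [pk_local h (j := lv q) (by omega)]

theorem rare_goodH : Rare {W | ¬ GoodH W} := by
  classical
  intro K hK
  choose D hD using exists_bd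
  refine ⟨fun n => 2 ^ (9 * (D n + n) + 3 + 1), fun n a => K + 3 ≤ n ∧ ∃ z ∈ strsOf n,
    Hit (orc _ a) z, fun n => ?_, fun W hW => ?_⟩
  · by_cases hn : K + 3 ≤ n
    · simp only [hn, true_and]
      have h1 : ∀ a : Fin (2 ^ (9 * (D n + n) + 3 + 1)) → Bool,
          (if ∃ z ∈ strsOf n, Hit (orc _ a) z then (1 : ℝ) else 0) ≤ ∑ z ∈ strsOf n,
          if Hit (orc _ a) z then (1 : ℝ) else 0 := by
        intro a
        by_cases hE : ∃ z ∈ strsOf n, Hit (orc _ a) z
        · rw [if_pos hE]
          obtain ⟨z, hz, hz2⟩ := hE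
          refine le_trans ?_ (Finset.single_le_sum (f := fun z => if Hit (orc _ a) z
            then (1 : ℝ) else 0) (fun x _ => by split_ifs <;> norm_num) hz)
          rw [if_pos hz2]
        · rw [if_neg hE]
          exact Finset.sum_nonneg fun x _ => by split_ifs <;> norm_num
      refine (Ex_mono unif_nn h1).trans ?_
      rw [Ex_sum]
      have h2 : ∀ z ∈ strsOf n, Ex unif (fun a : Fin (2 ^ (9 * (D n + n) + 3 + 1)) → Bool =>
          if Hit (orc _ a) z then (1 : ℝ) else 0) ≤ (1 / 8 : ℝ) ^ n := by
        intro z hz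
        rw [mem_strsOf'] at hz
        exact Ex_Hit z hz (hD n z hz.le) (Nat.pow_le_pow_right (by norm_num) (by omega))
      refine (Finset.sum_le_sum h2).trans ?_
      rw [Finset.sum_const, nsmul_eq_mul, card_strsOf']
      have h3 : ((2 ^ n : ℕ) : ℝ) * (1 / 8 : ℝ) ^ n = 1 / 4 ^ n := by
        push_cast
        rw [← mul_pow, one_div (4 ^ n : ℝ), ← inv_pow]
        norm_num
      rw [h3]
      have hK1 : (0 : ℝ) < K := by exact_mod_cast hK
      apply one_div_le_one_div_of_le (by positivity)
      have h4 := num4 n (by omega)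
      have h5 : K * ((n + 1) * (n + 2)) ≤ 4 ^ n :=
        le_trans (Nat.mul_le_mul_right _ (by omega)) h4
      exact_mod_cast h5
    · simp only [hn, false_and, if_false]
      rw [Ex_const unif_sm]
      positivity
  · by_contra hcon
    push Not at hcon
    refine hW ⟨K + 3, fun z hz hh => ?_⟩
    refine hcon z.length hz z (mem_strsOf'.2 rfl) ?_
    rw [Hit_local (W' := W) (hD z.length z le_rfl) (fun q hq => pre_local W le_rfl hq)]
    exact hh

end Pool.Agent.W908.US
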