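import Pool.Agent.W908.U.U4
import Pool.Agent.W908.T.T7

/-! Exponential time is in `UP`, in `coUP` and in `P/poly`. -/

set_option autoImplicit false

namespace Pool.Agent.W908.US

open Pool.Agent.NPC Pool.Agent.H620R2.Gauge Pool.Agent.H622R2 Pool.Agent.H676 Finset H568R2
open Pool.Agent.W908 (IsUP mach mach_surj)
open Pool.Agent.W908.MS (vrm poly_vrm)
open Pool.Agent.W908.UPH (stm poly_stm)
open Pool.Agent.W908.TS (Ks length_stm)
open Pool.Agent.W908.QS (QAlg qgen qgen_surj)

open Classical in
/-- the truth of the statement `z`, relative to the levels below the length of `z` -/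
noncomputable def tu (W : Oracle) (z : List Bool) : Bool := decide (SP.TT (Ow W z.length) z)

theorem OU_ans {W : Oracle} (c : Bool) (w z : List Bool) :
    OU W (pairBits w (true :: c :: z)) =
      (decide (w = pk W z.length) && (!c || tu W z)) := by
  by_cases h : ∃ j, w = pk W j
  · obtain ⟨j, rfl⟩ := h
    rw [OU_right (m := j) (by rw [unpair_pairBits]), unpair_pairBits]
    simp only [an1]
    by_cases hj : z.length = j
    · subst hj
      rw [decide_eq_true rfl, decide_eq_true rfl]
      rfl
    · have h1 : ¬ pk W j = pk W z.length := by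
        intro h
        have h1 := congrArg List.length h
        rw [length_pk, length_pk] at h1
        omega
      rw [decide_eq_false hj, decide_eq_false h1]
      rfl
  · have h1 : OU W (pairBits w (true :: c :: z)) = false := by
      cases h2 : OU W (pairBits w (true :: c :: z)) with
      | false => rfl
      | true =>
        exfalso
        obtain ⟨j, hj⟩ := OU_true h2
        rw [unpair_pairBits] at hj
        exact h ⟨j, hj⟩
    rw [h1, decide_eq_false (fun h2 => h ⟨_, h2⟩)]
    rfl

/-- the questions for the certificate `f y` and the input `g y` -/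
def vqu (e : List Bool) (p : Polynomial ℕ) (y : List Bool × List Bool) : List (List Bool) :=
  [pairBits y.1 (true :: false :: stm e p y.2), pairBits y.1 (true :: true :: stm e p y.2)]

theorem poly_vqu (e : List Bool) (p : Polynomial ℕ) {f : List Bool → List Bool × List Bool}
    (hf : Poly f) : Poly (fun y => vqu e p (f y)) := by
  have h := (poly_stm e p).comp (Poly.snd hf)
  exact Poly.cons (poly_pairBits (Poly.fst hf) (Poly.cons (NPC.Poly.const true)
    (Poly.cons (NPC.Poly.const false) h))) (Poly.cons (poly_pairBits (Poly.fst hf)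
    (Poly.cons (NPC.Poly.const true) (Poly.cons (NPC.Poly.const true) h))) (NPC.Poly.const []))

theorem vru_iff {W : Oracle} {b : Bool} {e : List Bool} {p : Polynomial ℕ}
    {y w x : List Bool} :
    vrm b (y, (vqu e p (w, x)).map (OU W)) = [true] ↔
      w = pk W (stm e p x).length ∧ tu W (stm e p x) = b := by
  unfold vrm vqu
  simp only [List.map_cons, List.map_nil]
  rw [OU_ans, OU_ans]
  constructor
  · intro h
    split_ifs at h with h1
    simp only [List.cons.injEq, and_true, Bool.not_false, Bool.true_or, Bool.and_true,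
      decide_eq_true_eq, Bool.not_true, Bool.false_or] at h1
    obtain ⟨h3, h4⟩ := h1
    rw [decide_eq_true h3, Bool.true_and] at h4
    exact ⟨h3, h4⟩
  · rintro ⟨h1, h2⟩
    rw [if_pos]
    rw [decide_eq_true h1, h2]
    simp

theorem isUPu (W : Oracle) (e : List Bool) (p : Polynomial ℕ) (b : Bool) :
    IsUP (OU W) {x | tu W (stm e p x) = b} := by
  refine ⟨fun y => vrm b (y, (vqu e p (unpair y)).map (OU W)), 4 * Ks e p,
    IsFP.tt (poly_vqu e p poly_unpair) (poly_vrm b), fun x => ?_, fun x w w' _ _ h h' => ?_⟩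
  · constructor
    · intro h
      refine ⟨pk W (stm e p x).length, ?_, ?_⟩
      · rw [length_pk, length_stm]
        simp only [Polynomial.eval_mul, Polynomial.eval_ofNat]
        exact le_rfl
      · simp only [unpair_pairBits]
        exact vru_iff.2 ⟨rfl, h⟩
    · rintro ⟨w, -, h⟩
      simp only [unpair_pairBits] at h
      exact (vru_iff.1 h).2
  · simp only [unpair_pairBits] at h h'
    rw [(vru_iff.1 h).1, (vru_iff.1 h').1]

theorem advice_u (W : Oracle) (e : List Bool) (p : Polynomial ℕ) :
    WithAdvice (IsP (OU W)) {x | tu W (stm e p x) = true} := by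
  have hf : Poly (fun y : List Bool => ((unpair y).2, (unpair y).1)) :=
    Poly.pair (Poly.snd poly_unpair) (Poly.fst poly_unpair)
  refine ⟨{y | vrm true (y, (vqu e p ((unpair y).2, (unpair y).1)).map (OU W)) = [true]},
    fun n => pk W ((Ks e p).eval n), 4 * Ks e p, ?_, fun n => ?_, fun x => ?_⟩
  · exact ⟨_, IsFP.tt (poly_vqu e p hf) (poly_vrm true), fun x => Iff.rfl⟩
  · rw [length_pk]
    simp only [Polynomial.eval_mul, Polynomial.eval_ofNat]
    exact le_rfl
  · show _ ↔ vrm true (pairBits x (pk W ((Ks e p).eval x.length)), (vqu e p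
      ((unpair (pairBits x (pk W ((Ks e p).eval x.length)))).2,
        (unpair (pairBits x (pk W ((Ks e p).eval x.length)))).1)).map (OU W)) = [true]
    rw [unpair_pairBits, vru_iff, length_stm]
    exact ⟨fun h => ⟨rfl, h⟩, fun h => h.2⟩

/-- membership in a language in exponential time is a bit of a long statement -/
theorem exp_tu {W : Oracle} (hW : GoodH W) {L : Set (List Bool)} (hL : IsEXP (OU W) L) :
    ∃ (e : List Bool) (p : Polynomial ℕ), ∀ x, x ∈ L ↔ tu W (stm e p x) = true := by
  classical
  obtain ⟨m₀, hm⟩ := hW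
  obtain ⟨M, hM⟩ := hL
  obtain ⟨e, he⟩ := mach_surj (M, 0)
  refine ⟨e, M.p + Polynomial.C m₀, fun x => ?_⟩
  obtain ⟨y, h1, h2⟩ := hM x
  have h3 : ¬ Hit W (stm e (M.p + Polynomial.C m₀) x) := by
    refine hm _ ?_
    rw [length_stm]
    unfold Pool.Agent.W908.TS.Ks
    simp only [Polynomial.eval_add, Polynomial.eval_C]
    omega
  unfold tu
  rw [decide_eq_true_eq, ← TT_OU h3]
  unfold Pool.Agent.W908.SP.TT Pool.Agent.W908.SP.mm Pool.Agent.W908.SP.xx
    Pool.Agent.W908.SP.rr Pool.Agent.W908.UPH.stm
  simp only [unpair_pairBits, he, List.length_replicate]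
  rw [Alg.run_mono M (OU W) x y _ _ [] (Nat.pow_le_pow_right (by norm_num) (by
    simp only [Polynomial.eval_add, Polynomial.eval_C]
    omega)) h1, Option.some.injEq]
  exact h2

theorem exp_main {W : Oracle} (hW : GoodH W) {L : Set (List Bool)} (hL : IsEXP (OU W) L) :
    IsUP (OU W) L ∧ IsUP (OU W) Lᶜ ∧ WithAdvice (IsP (OU W)) L := by
  obtain ⟨e, p, h⟩ := exp_tu hW hL
  have h1 : L = {x | tu W (stm e p x) = true} := by
    ext x
    exact h x
  have h2 : Lᶜ = {x | tu W (stm e p x) = false} := by
    ext x
    rw [Set.mem_compl_iff, h x]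
    simp
  refine ⟨?_, ?_, ?_⟩
  · rw [h1]
    exact isUPu W e p true
  · rw [h2]
    exact isUPu W e p false
  · rw [h1]
    exact advice_u W e p

theorem exists_WU : ∃ W : Oracle, GoodH W := by
  obtain ⟨W, hW⟩ := PS.exists_good (Θ := Unit) (fun _ => {W | ¬ GoodH W})
    (fun _ => rare_goodH)
  exact ⟨W, not_not.1 (hW ())⟩

theorem promiseU' (W : Oracle) (C : List Bool → List Unit × List Gate)
    (hC : PolyTime (fun x => bits (C x))) : ∃ D : List Bool → List Bool, IsFP (OU W) D ∧
      ∀ x : List Bool, (2 / 3 ≤ accProb (OU W) (C x) → D x = [true]) ∧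
        (accProb (OU W) (C x) ≤ 1 / 3 → D x ≠ [true]) := by
  obtain ⟨e, he⟩ := qgen_surj (⟨C, hC⟩, ⟨C, hC⟩)
  have h3 := promiseU W e
  rw [he] at h3
  exact h3

end Pool.Agent.W908.US
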