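import Pool.Agent.W908.U.U7
import Pool.Agent.W908.B.B7

/-! A tally set that is complete for exponential time. -/

set_option autoImplicit false

namespace Pool.Agent.W908.US

open Pool.Agent.NPC Pool.Agent.H620R2.Gauge Pool.Agent.H622R2 Finset H568R2 Pool.Agent.H676
open Pool.Agent.W908 (IsUP mach mach_surj join)
open Pool.Agent.H622R2.Exp (InTime Lin Pol)
open Pool.Agent.W908.UPH (stm poly_stm)
open Pool.Agent.W908.TS (Ks length_stm)
open Pool.Agent.W908.BS (nb nb_inj exists_nb pqs poly_pqs crt Fit tvr poly_tvr fit_iff)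

open Classical in
/-- the tally set -/
noncomputable def TU (W : Oracle) : Oracle := fun x =>
  decide (∃ k i, i < 4 * k + 4 ∧ x = List.replicate (nb k i) true ∧
    (pk W (k + 1)).getD i false = true)

theorem TU_nb (W : Oracle) {k i : ℕ} (hi : i < 4 * k + 4) :
    TU W (List.replicate (nb k i) true) = (pk W (k + 1)).getD i false := by
  classical
  unfold TU
  rw [Bool.eq_iff_iff, decide_eq_true_eq]
  constructor
  · rintro ⟨k', i', hi', h1, h2⟩
    have h3 := congrArg List.length h1
    rw [List.length_replicate, List.length_replicate] at h3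
    obtain ⟨rfl, rfl⟩ := nb_inj hi hi' h3
    exact h2
  · intro h
    exact ⟨k, i, hi, rfl, h⟩

theorem pqs_mapu (W : Oracle) (K : Polynomial ℕ) (x : List Bool) :
    (pqs K x).map (join (OU W) (TU W)) = pk W (K.eval x.length + 1) := by
  have hl : (Polynomial.C 4 * K + Polynomial.C 4).eval x.length = 4 * K.eval x.length + 4 := by
    simp
  have hl2 : (Polynomial.C 2 * K ^ 2 + Polynomial.C 2 * K).eval x.length =
      2 * (K.eval x.length) ^ 2 + 2 * K.eval x.length := by simp
  unfold pqs
  rw [hl, hl2, List.map_map]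
  refine List.ext_getElem ?_ fun i h1 h2 => ?_
  · rw [List.length_map, List.length_range, length_pk]
    ring
  · rw [List.getElem_map, List.getElem_range]
    have h3 : i < 4 * K.eval x.length + 4 := by
      rw [length_pk] at h2
      omega
    show TU W (List.replicate (2 * (K.eval x.length) ^ 2 + 2 * K.eval x.length + min i _) true) = _
    rw [min_eq_left h3.le]
    exact (TU_nb W h3).trans (List.getD_eq_getElem _ _ h2)

/-- the last question -/
def lqu (e : List Bool) (p : Polynomial ℕ) (s : List Bool) : List (List Bool) :=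
  [false :: pairBits (unpair s).2 (true :: true :: stm e p (unpair s).1)]

theorem poly_lqu (e : List Bool) (p : Polynomial ℕ) : Poly (lqu e p) :=
  Poly.cons (Poly.cons (NPC.Poly.const false) (poly_pairBits (Poly.snd poly_unpair)
    (Poly.cons (NPC.Poly.const true) (Poly.cons (NPC.Poly.const true)
      ((poly_stm e p).comp (Poly.fst poly_unpair)))))) (NPC.Poly.const [])

/-- exponential time reduces to the tally set -/
theorem exp_tallyu {W : Oracle} (hW : GoodH W) {L : Set (List Bool)}
    (hL : InTime Pol (OU W) L) : IsP (join (OU W) (TU W)) L := by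
  classical
  obtain ⟨M, q, -, hM⟩ := hL
  obtain ⟨e, m₀, h1⟩ := exp_tu2 hW hM
  obtain ⟨p, hp⟩ : ∃ p, p = q + Polynomial.C m₀ := ⟨_, rfl⟩
  rw [← hp] at h1
  obtain ⟨K, hK⟩ : ∃ K : Polynomial ℕ, K = Polynomial.C (2 * e.length) +
    Polynomial.C 2 * Polynomial.X + p + Polynomial.C 1 := ⟨_, rfl⟩
  have hK2 : ∀ n, K.eval n + 1 = (Ks e p).eval n := by
    intro n
    rw [hK]
    unfold Pool.Agent.W908.TS.Ks
    simp only [Polynomial.eval_add, Polynomial.eval_C]
  have g1 : IsFP (join (OU W) (TU W)) (fun x => pairBits x ((pqs K x).map (join (OU W) (TU W)))) :=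
    IsFP.tt (H := fun q => pairBits q.1 q.2) (poly_pqs K)
      (poly_pairBits (Poly.fst Poly.id) (Poly.snd Poly.id))
  have g2 : IsFP (join (OU W) (TU W)) (fun s => (lqu e p s).map (join (OU W) (TU W))) :=
    IsFP.tt (H := fun q => q.2) (poly_lqu e p) (Poly.snd Poly.id)
  refine ⟨_, g2.comp g1, fun x => ?_⟩
  simp only [pqs_mapu]
  unfold lqu
  simp only [unpair_pairBits, List.map_cons, List.map_nil, List.cons.injEq, and_true]
  show x ∈ L ↔ OU W (pairBits (pk W (K.eval x.length + 1)) (true :: true :: stm e p x)) = true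
  rw [OU_ans, length_stm, hK2, decide_eq_true rfl, h1 x]
  simp

/-! ### The tally set is in `UP` and `coUP` -/

/-- the question -/
def tqu (y : List Bool) : List (List Bool) :=
  [pairBits (unpair (unpair (unpair y).1).2).2 []]

theorem poly_tqu : Poly tqu := by
  have h0 : Poly (fun y : List Bool => unpair (unpair y).1) :=
    poly_unpair.comp (Poly.fst poly_unpair)
  have h1 : Poly (fun y : List Bool => unpair (unpair (unpair y).1).2) :=
    poly_unpair.comp (Poly.snd h0)
  exact Poly.cons (poly_pairBits (Poly.snd h1) (NPC.Poly.const [])) (NPC.Poly.const [])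

theorem ck_iff {W : Oracle} {v : List Bool} {k : ℕ} (hv : v.length = 4 * k + 4) :
    OU W (pairBits v []) = true ↔ v = pk W (k + 1) := by
  rw [OU_check]
  constructor
  · rintro ⟨j, hj⟩
    have h1 := congrArg List.length hj
    rw [hv, length_pk] at h1
    have h2 : j = k + 1 := by omega
    rw [hj, h2]
  · intro h
    exact ⟨_, h⟩

theorem tvru_iff {W : Oracle} {b : Bool} {w : List Bool} {N : ℕ} :
    tvr b (pairBits w (List.replicate N true), (tqu (pairBits w (List.replicate N true))).map
      (OU W)) = [true] ↔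
    ∃ k i, i < 4 * k + 4 ∧ N = nb k i ∧ w = crt k i (pk W (k + 1)) ∧
      (pk W (k + 1)).getD i false = b := by
  unfold tvr tqu
  simp only [unpair_pairBits, List.map_cons, List.map_nil, List.length_replicate]
  rw [if_pos trivial]
  constructor
  · intro h
    split_ifs at h with h1
    obtain ⟨h2, h3, h4⟩ := h1
    obtain ⟨k, i, v, rfl, hN, hv, hi⟩ := fit_iff.1 h2
    unfold crt at h3 h4
    simp only [unpair_pairBits, List.length_replicate] at h3 h4
    simp only [List.cons.injEq, and_true] at h3
    rw [ck_iff hv] at h3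
    rw [h3] at h4
    refine ⟨k, i, hi, hN, ?_, h4⟩
    unfold crt
    rw [h3]
  · rintro ⟨k, i, hi, hN, rfl, hb⟩
    have hl : (pk W (k + 1)).length = 4 * k + 4 := by
      rw [length_pk]
      ring
    rw [if_pos]
    refine ⟨fit_iff.2 ⟨k, i, _, rfl, hN, hl, hi⟩, ?_⟩
    unfold crt
    simp only [unpair_pairBits, List.length_replicate]
    rw [(ck_iff hl).2 rfl]
    exact ⟨rfl, hb⟩

theorem isUP_TU (W : Oracle) (b : Bool) : IsUP (OU W) {x | TU W x = b} := by
  classical
  have hun : ∀ x : List Bool, x = List.replicate x.length true ∨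
      ¬ x = List.replicate x.length true := fun x => em _
  have hneg : ∀ x w : List Bool, ¬ x = List.replicate x.length true →
      (tvr b (pairBits w x, (tqu (pairBits w x)).map (OU W)) = [true] ↔ w = [] ∧ b = false) := by
    intro x w hx
    unfold tvr
    simp only [unpair_pairBits]
    rw [if_neg hx]
    split_ifs with h
    · exact ⟨fun _ => h, fun _ => rfl⟩
    · exact ⟨fun h1 => absurd h1 (by simp), fun h1 => absurd h1 h⟩
  refine ⟨fun y => tvr b (y, (tqu y).map (OU W)), Polynomial.C 10 * Polynomial.X + Polynomial.C 10,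
    IsFP.tt poly_tqu (poly_tvr b), fun x => ?_, fun x w w' _ _ h h' => ?_⟩
  · rcases hun x with hx | hx
    · obtain ⟨k, i, hi, hN⟩ := exists_nb x.length
      have h1 : TU W x = (pk W (k + 1)).getD i false := by
        rw [hx, hN]
        exact TU_nb W hi
      show TU W x = b ↔ _
      rw [h1]
      constructor
      · intro h
        refine ⟨crt k i (pk W (k + 1)), ?_, ?_⟩
        · unfold crt
          rw [A2.length_pairBits, A2.length_pairBits, List.length_replicate,
            List.length_replicate, length_pk]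
          simp only [Polynomial.eval_add, Polynomial.eval_mul, Polynomial.eval_C,
            Polynomial.eval_X]
          unfold nb at hN
          nlinarith
        · rw [hx]
          exact tvru_iff.2 ⟨k, i, hi, hN, rfl, h⟩
      · rintro ⟨w, -, h⟩
        rw [hx] at h
        obtain ⟨k', i', hi', hN', -, h2⟩ := tvru_iff.1 h
        obtain ⟨rfl, rfl⟩ := nb_inj hi hi' (hN.symm.trans hN')
        exact h2
    · have h1 : TU W x = false := by
        unfold TU
        rw [decide_eq_false_iff_not]
        rintro ⟨k, i, -, h1, -⟩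
        apply hx
        rw [h1, List.length_replicate]
      show TU W x = b ↔ _
      rw [h1]
      constructor
      · intro h
        exact ⟨[], Nat.zero_le _, (hneg x [] hx).2 ⟨rfl, h.symm⟩⟩
      · rintro ⟨w, -, h⟩
        exact ((hneg x w hx).1 h).2.symm
  · rcases hun x with hx | hx
    · rw [hx] at h h'
      obtain ⟨k, i, hi, hN, h1, -⟩ := tvru_iff.1 h
      obtain ⟨k', i', hi', hN', h1', -⟩ := tvru_iff.1 h'
      obtain ⟨rfl, rfl⟩ := nb_inj hi hi' (hN.symm.trans hN')
      rw [h1, h1']
    · rw [((hneg x w hx).1 h).1, ((hneg x w' hx).1 h').1]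

/-- The relativized world. -/
theorem mainU : ∃ O : Oracle,
    (∀ C : List Bool → List Unit × List Gate, PolyTime (fun x => bits (C x)) →
      ∃ D : List Bool → List Bool, IsFP O D ∧ ∀ x : List Bool,
        (2 / 3 ≤ accProb O (C x) → D x = [true]) ∧ (accProb O (C x) ≤ 1 / 3 → D x ≠ [true])) ∧
    (∀ L : Set (List Bool), InTime Lin O L → ∃ c : ℕ, ∀ n : ℕ,
      Ckt.Small O L (c * (n + 1)) n) ∧
    (∀ L : Set (List Bool), InTime Pol O L → (∃ p : Polynomial ℕ, ∀ n : ℕ,
      Ckt.Small O L (p.eval n : ℕ) n) ∧ IsUP O L ∧ IsUP O Lᶜ) ∧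
    ∃ T : Oracle, (∀ x : List Bool, T x = true → ∃ n, x = List.replicate n true) ∧
      IsUP O {x | T x = true} ∧ IsUP O {x | T x = true}ᶜ ∧
      ∀ L : Set (List Bool), InTime Pol O L → IsP (join O T) L := by
  classical
  obtain ⟨W, hW⟩ := exists_WU
  refine ⟨OU W, promiseU' W, fun L hL => small_lin hW hL, fun L hL => ⟨small_pol hW hL, ?_⟩,
    TU W, fun x hx => ?_, isUP_TU W true, ?_, fun L hL => exp_tallyu hW hL⟩
  · obtain ⟨M, q, -, hM⟩ := hL
    obtain ⟨e, m₀, h⟩ := exp_set hW hM
    have h2 : Lᶜ = {x | tu W (stm e (q + Polynomial.C m₀) x) = false} := by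
      rw [h]
      ext x
      simp
    rw [h2, h]
    exact ⟨isUPu W e _ true, isUPu W e _ false⟩
  · unfold TU at hx
    rw [decide_eq_true_eq] at hx
    obtain ⟨k, i, -, h, -⟩ := hx
    exact ⟨_, h⟩
  · have h : {x | TU W x = true}ᶜ = {x | TU W x = false} := by
      ext x
      simp
    rw [h]
    exact isUP_TU W false

end Pool.Agent.W908.US
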