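import Pool.Agent.W908.U.U5
import Pool.Agent.H622R2.Ckt.Defs

/-! Languages in exponential time have circuits with one gate. -/

set_option autoImplicit false

namespace Pool.Agent.W908.US

open Pool.Agent.NPC Pool.Agent.H620R2.Gauge
open Pool.Agent.W908 (IsUP mach mach_surj)
open Pool.Agent.W908.UPH (stm)
open Pool.Agent.W908.TS (Ks length_stm)
open Pool.Agent.H622R2
open Pool.Agent.H622R2.Ckt (Wire Circuit)
open Pool.Agent.H622R2.Exp (InTime Lin Pol)

/-- the bits of `f x` are bits of `x` or constants, for the `x` of length `n` -/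
def Proj (n : ℕ) (f : List Bool → List Bool) : Prop :=
  ∃ l : List Wire, ∀ x : List Bool, x.length = n → l.map (Wire.val x []) = f x

theorem Proj.const (n : ℕ) (w : List Bool) : Proj n (fun _ => w) := by
  refine ⟨w.map Wire.cst, fun x _ => ?_⟩
  rw [List.map_map]
  exact List.map_id' w

theorem Proj.id (n : ℕ) : Proj n (fun x => x) := by
  refine ⟨(List.range n).map Wire.inp, fun x hx => ?_⟩
  subst hx
  rw [List.map_map]
  refine List.ext_getElem ?_ fun i h1 h2 => ?_
  · rw [List.length_map, List.length_range]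
  · rw [List.getElem_map, List.getElem_range]
    show x.getD i false = _
    rw [List.getD_eq_getElem?_getD, List.getElem?_eq_getElem h2]
    rfl

theorem Proj.pair {n : ℕ} {f g : List Bool → List Bool} (hf : Proj n f) (hg : Proj n g) :
    Proj n (fun x => pairBits (f x) (g x)) := by
  obtain ⟨l, hl⟩ := hf
  obtain ⟨l', hl'⟩ := hg
  refine ⟨l.flatMap (fun w => [Wire.cst true, w]) ++ Wire.cst false :: l', fun x hx => ?_⟩
  show _ = pairBits (f x) (g x)
  unfold pairBits
  rw [List.map_append, List.map_cons, hl' x hx, ← hl x hx, List.map_flatMap, List.flatMap_map]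
  rfl

theorem Proj.append {n : ℕ} {f g : List Bool → List Bool} (hf : Proj n f) (hg : Proj n g) :
    Proj n (fun x => f x ++ g x) := by
  obtain ⟨l, hl⟩ := hf
  obtain ⟨l', hl'⟩ := hg
  exact ⟨l ++ l', fun x hx => by rw [List.map_append, hl x hx, hl' x hx]⟩

theorem Proj.congr {n : ℕ} {f g : List Bool → List Bool} (hf : Proj n f)
    (h : ∀ x, x.length = n → f x = g x) : Proj n g := by
  obtain ⟨l, hl⟩ := hf
  exact ⟨l, fun x hx => by rw [hl x hx, h x hx]⟩

/-- one oracle gate -/
theorem Proj.small {n : ℕ} {f : List Bool → List Bool} (hf : Proj n f) {A : Oracle}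
    {L : Set (List Bool)} (h : ∀ x, x.length = n → (x ∈ L ↔ A (f x) = true)) {s : ℝ}
    (hs : ∀ x, x.length = n → ((f x).length : ℝ) + 1 < s) : Ckt.Small A L s n := by
  obtain ⟨l, hl⟩ := hf
  refine ⟨⟨[Pool.Agent.H622R2.Ckt.Gate.ask l], Wire.gate 0⟩, ?_, fun x hx => ?_⟩
  · have h1 := hs (List.replicate n false) List.length_replicate
    rw [← hl _ List.length_replicate, List.length_map] at h1
    refine lt_of_le_of_lt (le_of_eq ?_) h1
    unfold Circuit.size
    simp [Pool.Agent.H622R2.Ckt.Gate.size]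
  · rw [h x hx, ← hl x hx]
    rfl

theorem small_stm (W : Oracle) (e : List Bool) (p : Polynomial ℕ) (n : ℕ) {s : ℝ}
    (hs : 9 * (((Ks e p).eval n : ℕ) : ℝ) + 4 < s) :
    Ckt.Small (OU W) {x | tu W (stm e p x) = true} s n := by
  obtain ⟨K, hK⟩ : ∃ K, K = (Ks e p).eval n := ⟨_, rfl⟩
  have h1 : Proj n (fun x => pairBits (pk W K) (true :: true :: stm e p x)) := by
    have h2 : Proj n (fun x => pairBits (pk W K) ([true, true] ++ pairBits e (pairBits x
        (List.replicate (p.eval n) true)))) :=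
      (Proj.const n _).pair ((Proj.const n _).append ((Proj.const n _).pair
        ((Proj.id n).pair (Proj.const n _))))
    refine h2.congr fun x hx => ?_
    subst hx
    rfl
  refine h1.small (fun x hx => ?_) fun x hx => ?_
  · rw [OU_ans, hK, length_stm, hx, decide_eq_true rfl]
    simp
  · rw [A2.length_pairBits, length_pk, List.length_cons, List.length_cons, length_stm, hx, ← hK]
    rw [← hK] at hs
    push_cast
    linarith

/-- membership in a language in exponential time is a bit of a statement -/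
theorem exp_tu2 {W : Oracle} (hW : GoodH W) {L : Set (List Bool)} {M : Alg} {q : Polynomial ℕ}
    (hM : ∀ x : List Bool, ∃ z : List Bool,
      M.run (OU W) x (2 ^ q.eval x.length) [] = some z ∧ (x ∈ L ↔ z = [true])) :
    ∃ (e : List Bool) (m₀ : ℕ), ∀ x, x ∈ L ↔ tu W (stm e (q + Polynomial.C m₀) x) = true := by
  classical
  obtain ⟨m₀, hm⟩ := hW
  obtain ⟨e, he⟩ := mach_surj (M, 0)
  refine ⟨e, m₀, fun x => ?_⟩
  obtain ⟨y, h1, h2⟩ := hM x
  have h3 : ¬ Hit W (stm e (q + Polynomial.C m₀) x) := by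
    refine hm _ ?_
    rw [length_stm]
    unfold Pool.Agent.W908.TS.Ks
    simp only [Polynomial.eval_add, Polynomial.eval_C]
    omega
  unfold tu
  rw [decide_eq_true_eq, ← TT_OU h3]
  unfold Pool.Agent.W908.SP.TT Pool.Agent.W908.SP.mm Pool.Agent.W908.SP.xx
    Pool.Agent.W908.SP.rr Pool.Agent.W908.UPH.stm
  simp only [unpair_pairBits, he, List.length_replicate]
  rw [Alg.run_mono M (OU W) x y _ _ [] (Nat.pow_le_pow_right (by norm_num) (by
    simp only [Polynomial.eval_add, Polynomial.eval_C]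
    omega)) h1, Option.some.injEq]
  exact h2

theorem exp_set {W : Oracle} (hW : GoodH W) {L : Set (List Bool)} {M : Alg} {q : Polynomial ℕ}
    (hM : ∀ x : List Bool, ∃ z : List Bool,
      M.run (OU W) x (2 ^ q.eval x.length) [] = some z ∧ (x ∈ L ↔ z = [true])) :
    ∃ (e : List Bool) (m₀ : ℕ), L = {x | tu W (stm e (q + Polynomial.C m₀) x) = true} := by
  obtain ⟨e, m₀, h⟩ := exp_tu2 hW hM
  exact ⟨e, m₀, Set.ext h⟩

/-- circuits of linear size for `E` -/
theorem small_lin {W : Oracle} (hW : GoodH W) {L : Set (List Bool)} (hL : InTime Lin (OU W) L) :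
    ∃ c : ℕ, ∀ n : ℕ, Ckt.Small (OU W) L (c * (n + 1)) n := by
  obtain ⟨M, q, ⟨c, rfl⟩, hM⟩ := hL
  obtain ⟨e, m₀, rfl⟩ := exp_set hW hM
  refine ⟨9 * (2 * e.length + 2 + c + m₀ + 2) + 5, fun n => small_stm W e _ n ?_⟩
  have h1 : (Ks e (Polynomial.C c * (Polynomial.X + 1) + Polynomial.C m₀)).eval n =
      2 * e.length + 2 * n + (c * (n + 1) + m₀) + 2 := by
    unfold Pool.Agent.W908.TS.Ks
    simp only [Polynomial.eval_add, Polynomial.eval_mul, Polynomial.eval_C, Polynomial.eval_X,
      Polynomial.eval_one]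
  rw [h1]
  push_cast
  have h2 : (0 : ℝ) ≤ n := Nat.cast_nonneg n
  have h3 : (0 : ℝ) ≤ e.length := Nat.cast_nonneg _
  have h4 : (0 : ℝ) ≤ m₀ := Nat.cast_nonneg _
  have h5 : (0 : ℝ) ≤ c := Nat.cast_nonneg _
  nlinarith [mul_nonneg h2 h3, mul_nonneg h2 h4, mul_nonneg h2 h5]

/-- circuits of polynomial size for `EXP` -/
theorem small_pol {W : Oracle} (hW : GoodH W) {L : Set (List Bool)} (hL : InTime Pol (OU W) L) :
    ∃ p : Polynomial ℕ, ∀ n : ℕ, Ckt.Small (OU W) L (p.eval n : ℕ) n := by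
  obtain ⟨M, q, -, hM⟩ := hL
  obtain ⟨e, m₀, rfl⟩ := exp_set hW hM
  refine ⟨9 * Ks e (q + Polynomial.C m₀) + 5, fun n => small_stm W e _ n ?_⟩
  simp only [Polynomial.eval_add, Polynomial.eval_mul, Polynomial.eval_ofNat]
  push_cast
  linarith

end Pool.Agent.W908.US
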